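import Pool.Agent.W566.MZ.Stmts

/-! Task MZ-LIM (helper402): from finite 2-groups to `GL_n(k⟦X⟧)`. -/

set_option autoImplicit false
set_option linter.unusedVariables false

noncomputable section

namespace Pool.Agent.W402.MZ.Lim

open PowerSeries

/-- truncated power series -/
def RR (k : Type) [Field k] (m : ℕ) : Type :=
  PowerSeries k ⧸ Ideal.span {(PowerSeries.X : PowerSeries k) ^ m}

instance (k : Type) [Field k] (m : ℕ) : CommRing (RR k m) :=
  inferInstanceAs (CommRing (PowerSeries k ⧸ Ideal.span {(PowerSeries.X : PowerSeries k) ^ m}))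

section basic

variable {k : Type} [Field k]

/-- the quotient map -/
def q (m : ℕ) : PowerSeries k →+* RR k m := Ideal.Quotient.mk _

lemma q_surj (m : ℕ) : Function.Surjective (q m : PowerSeries k →+* RR k m) :=
  Ideal.Quotient.mk_surjective

lemma q_eq {m : ℕ} {x y : PowerSeries k} : q m x = q m y ↔ (X : PowerSeries k) ^ m ∣ x - y := by
  exact (Ideal.Quotient.eq (I := Ideal.span {(X : PowerSeries k) ^ m})).trans
    Ideal.mem_span_singleton

lemma q_eq_coeff {m : ℕ} {x y : PowerSeries k} :
    q m x = q m y ↔ ∀ d < m, coeff d x = coeff d y := by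
  rw [q_eq, X_pow_dvd_iff]
  constructor
  · intro h d hd
    have := h d hd
    rw [map_sub, sub_eq_zero] at this
    exact this
  · intro h d hd
    rw [map_sub, h d hd, sub_self]

lemma ext_q {x y : PowerSeries k} (h : ∀ m, q m x = q m y) : x = y := by
  ext d
  exact q_eq_coeff.mp (h (d + 1)) d (Nat.lt_succ_self d)

lemma finite_RR [Finite k] (m : ℕ) : Finite (RR k m) := by
  apply Finite.of_injective (β := Fin m → k)
    (fun r i => coeff (i : ℕ) (Function.surjInv (q_surj m) r))
  intro r r' h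
  have h1 : q m (Function.surjInv (q_surj m) r) = q m (Function.surjInv (q_surj m) r') := by
    rw [q_eq_coeff]
    intro d hd
    exact congrFun h ⟨d, hd⟩
  rwa [Function.surjInv_eq (q_surj m) r, Function.surjInv_eq (q_surj m) r'] at h1

/-- further truncation -/
def pi {m m' : ℕ} (h : m ≤ m') : RR k m' →+* RR k m :=
  Ideal.Quotient.factor (Ideal.span_singleton_le_span_singleton.mpr (pow_dvd_pow X h))

lemma pi_q {m m' : ℕ} (h : m ≤ m') (x : PowerSeries k) : pi h (q m' x) = q m x := rfl

end basic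

section group

variable {k : Type} [Field k] (n : ℕ)

/-- the congruence subgroup -/
def Gam (k : Type) [Field k] (n : ℕ) : Subgroup (GL (Fin n) (PowerSeries k)) :=
  (Matrix.GeneralLinearGroup.map (n := Fin n) (PowerSeries.constantCoeff (R := k))).ker

/-- its image modulo `X ^ m` -/
def HH (k : Type) [Field k] (n m : ℕ) : Subgroup (GL (Fin n) (RR k m)) :=
  (Gam k n).map (Matrix.GeneralLinearGroup.map (n := Fin n) (q m))

lemma two_eq [CharP k 2] : (2 : Matrix (Fin n) (Fin n) (PowerSeries k)) = 0 := by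
  have h : (2 : PowerSeries k) = 0 := by
    have h1 : (2 : k) = 0 := by exact_mod_cast CharP.cast_eq_zero k 2
    have h2 : (2 : PowerSeries k) = C (2 : k) := by
      rw [map_ofNat]
    rw [h2, h1, map_zero]
  ext1 a b
  rw [← one_add_one_eq_two, Matrix.add_apply, ← two_mul, h, zero_mul]
  rfl

lemma one_add_pow [CharP k 2] (W : Matrix (Fin n) (Fin n) (PowerSeries k)) (e : ℕ) :
    (1 + W) ^ (2 ^ e) = 1 + W ^ (2 ^ e) := by
  induction e with
  | zero => simp
  | succ e ih =>
    rw [pow_succ 2 e, pow_mul, ih, pow_mul]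
    have h : (1 + W ^ 2 ^ e) ^ 2 = 1 + (W ^ 2 ^ e) ^ 2 + 2 * W ^ 2 ^ e := by noncomm_ring
    rw [h, two_eq, zero_mul, add_zero]

lemma mem_Gam {g : GL (Fin n) (PowerSeries k)} :
    g ∈ Gam k n ↔ ∀ a b, (X : PowerSeries k) ∣
      ((g : Matrix (Fin n) (Fin n) (PowerSeries k)) - 1) a b := by
  unfold Gam
  rw [MonoidHom.mem_ker]
  constructor
  · intro h a b
    have h1 := congrArg (fun M : GL (Fin n) k => (M : Matrix (Fin n) (Fin n) k) a b) h
    simp only [Matrix.GeneralLinearGroup.map_apply] at h1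
    rw [X_dvd_iff, Matrix.sub_apply, map_sub, h1]
    by_cases hab : a = b
    · subst hab; simp
    · simp [hab]
  · intro h
    ext a b
    have h1 := h a b
    rw [X_dvd_iff, Matrix.sub_apply, map_sub, sub_eq_zero] at h1
    simp only [Matrix.GeneralLinearGroup.map_apply]
    rw [h1]
    by_cases hab : a = b
    · subst hab; simp
    · simp [hab]

lemma pgroup [CharP k 2] (m : ℕ) : IsPGroup 2 (HH k n m) := by
  rintro ⟨h, hh⟩
  obtain ⟨g, hg, rfl⟩ := hh
  refine ⟨m, ?_⟩
  apply Subtype.ext
  show (Matrix.GeneralLinearGroup.map (n := Fin n) (q m) g) ^ (2 ^ m) = 1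
  rw [← map_pow]
  have hg' := (mem_Gam n).mp hg
  choose Z hZ using hg'
  have h1 : (g : Matrix (Fin n) (Fin n) (PowerSeries k)) =
      1 + (X : PowerSeries k) • (Matrix.of Z) := by
    ext1 a b
    have := hZ a b
    rw [Matrix.sub_apply] at this
    rw [Matrix.add_apply, Matrix.smul_apply, Matrix.of_apply, smul_eq_mul, ← this]
    ring
  have h2 : ((g ^ (2 ^ m) : GL (Fin n) (PowerSeries k)) :
      Matrix (Fin n) (Fin n) (PowerSeries k)) =
      1 + (X : PowerSeries k) ^ (2 ^ m) • (Matrix.of Z) ^ (2 ^ m) := by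
    rw [Units.val_pow_eq_pow_val, h1, one_add_pow, smul_pow]
  ext a b
  simp only [Matrix.GeneralLinearGroup.map_apply]
  rw [h2]
  have h3 : q m (((1 : Matrix (Fin n) (Fin n) (PowerSeries k)) +
      (X : PowerSeries k) ^ (2 ^ m) • (Matrix.of Z) ^ (2 ^ m)) a b) =
      q m ((1 : Matrix (Fin n) (Fin n) (PowerSeries k)) a b) := by
    rw [q_eq, Matrix.add_apply, Matrix.smul_apply, smul_eq_mul, add_sub_cancel_left]
    exact Dvd.dvd.mul_right (pow_dvd_pow X Nat.lt_two_pow_self.le) _
  rw [h3]
  by_cases hab : a = b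
  · subst hab; simp
  · simp [hab]

lemma mem_HH (m : ℕ) {g : GL (Fin n) (PowerSeries k)} (h : g ∈ Gam k n) :
    Matrix.GeneralLinearGroup.map (n := Fin n) (q m) g ∈ HH k n m := by
  unfold HH
  rw [Subgroup.mem_map]
  exact ⟨g, h, rfl⟩

/-- the image of an element of the congruence subgroup -/
def toHH (m : ℕ) (g : GL (Fin n) (PowerSeries k)) (h : g ∈ Gam k n) : HH k n m :=
  ⟨_, mem_HH n m h⟩

lemma toHH_val (m : ℕ) (g : GL (Fin n) (PowerSeries k)) (h : g ∈ Gam k n) :
    (toHH n m g h : GL (Fin n) (RR k m)) =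
      Matrix.GeneralLinearGroup.map (n := Fin n) (q m) g := rfl

lemma toHH_sq (m : ℕ) (g : GL (Fin n) (PowerSeries k)) (h : g ∈ Gam k n) (h2 : g * g = 1) :
    toHH n m g h * toHH n m g h = 1 := by
  apply Subtype.ext
  rw [Subgroup.coe_mul, toHH_val, ← map_mul, h2, map_one]
  rfl

end group

theorem lim : MZ.StmLim := by
  intro P _ _ _ _ _ ι c σ hTop hAss k _ _ _ n t ht2 ht1
  have hfin : ∀ m, Finite (RR k m) := finite_RR
  have htΓ : ∀ i, t i ∈ Gam k n := fun i => MonoidHom.mem_ker.mpr (ht1 i)
  -- the maps to the finite levels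
  have hex : ∀ m : ℕ, ∃ Ψ : P →* GL (Fin n) (RR k m), IsOpen (Ψ.ker : Set P) ∧
      (∀ i, Ψ (c i) = Matrix.GeneralLinearGroup.map (q m) (t i)) ∧ Ψ σ = 1 ∧
      ∀ g, Ψ g ∈ HH k n m := by
    intro m
    have := hfin m
    have hfGL : Finite (GL (Fin n) (RR k m)) := inferInstance
    have hfH : Finite (HH k n m) := inferInstance
    have hcard : ∃ e : ℕ, Nat.card (HH k n m) = 2 ^ e := by
      have : Fact (Nat.Prime 2) := ⟨Nat.prime_two⟩
      exact (IsPGroup.iff_card).mp (pgroup n m)
    obtain ⟨ψ, hψ1, hψ2, hψ3⟩ := hAss (HH k n m) hcard (fun i => toHH n m (t i) (htΓ i)) 1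
      (fun i => toHH_sq n m (t i) (htΓ i) (ht2 i))
    refine ⟨(HH k n m).subtype.comp ψ, ?_, ?_, ?_, fun g => (ψ g).2⟩
    · have e : ((HH k n m).subtype.comp ψ).ker = ψ.ker := by
        ext g
        simp [MonoidHom.mem_ker]
      rw [e]
      exact hψ1
    · intro i
      rw [← toHH_val n m (t i) (htΓ i), ← hψ2 i]
      rfl
    · rw [MonoidHom.comp_apply, hψ3, map_one]
  choose Ψ hΨo hΨc hΨσ hΨH using hex
  -- compatibility
  have hcomp : ∀ m m' : ℕ, ∀ h : m ≤ m', ∀ g : P,
      Matrix.GeneralLinearGroup.map (pi h) (Ψ m' g) = Ψ m g := by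
    intro m m' h g
    have h1 : ((Matrix.GeneralLinearGroup.map (n := Fin n) (pi h)).comp (Ψ m')).eqLocus (Ψ m) =
        ⊤ := by
      apply hTop
      · apply Subgroup.isOpen_mono (H₁ := (Ψ m').ker ⊓ (Ψ m).ker)
        · rintro x ⟨hx1, hx2⟩
          show Matrix.GeneralLinearGroup.map (pi h) (Ψ m' x) = Ψ m x
          rw [MonoidHom.mem_ker.mp hx1, MonoidHom.mem_ker.mp hx2, map_one]
        · exact (hΨo m').inter (hΨo m)
      · intro i
        show Matrix.GeneralLinearGroup.map (pi h) (Ψ m' (c i)) = Ψ m (c i)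
        rw [hΨc, hΨc]
        ext a b
        rfl
      · show Matrix.GeneralLinearGroup.map (pi h) (Ψ m' σ) = Ψ m σ
        rw [hΨσ, hΨσ, map_one]
    have h2 : g ∈ ((Matrix.GeneralLinearGroup.map (n := Fin n) (pi h)).comp (Ψ m')).eqLocus (Ψ m) := by
      rw [h1]
      exact Subgroup.mem_top g
    exact h2
  -- the limit
  let lift : (m : ℕ) → RR k m → PowerSeries k := fun m => Function.surjInv (q_surj m)
  have hlift : ∀ (m : ℕ) (r : RR k m), q m (lift m r) = r := fun m r =>
    Function.surjInv_eq (q_surj m) r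
  let M : P → Matrix (Fin n) (Fin n) (PowerSeries k) := fun g => Matrix.of fun a b =>
    PowerSeries.mk fun d => coeff d (lift (d + 1)
      ((Ψ (d + 1) g : Matrix (Fin n) (Fin n) (RR k (d + 1))) a b))
  have hM : ∀ (m : ℕ) (g : P) (a b : Fin n),
      q m (M g a b) = (Ψ m g : Matrix (Fin n) (Fin n) (RR k m)) a b := by
    intro m g a b
    rw [← hlift m ((Ψ m g : Matrix (Fin n) (Fin n) (RR k m)) a b), q_eq_coeff]
    intro d hd
    have hMd : M g a b = PowerSeries.mk fun d => coeff d (lift (d + 1)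
      ((Ψ (d + 1) g : Matrix (Fin n) (Fin n) (RR k (d + 1))) a b)) := rfl
    rw [hMd, coeff_mk]
    have h1 : q (d + 1) (lift (d + 1)
        ((Ψ (d + 1) g : Matrix (Fin n) (Fin n) (RR k (d + 1))) a b)) =
        q (d + 1) (lift m ((Ψ m g : Matrix (Fin n) (Fin n) (RR k m)) a b)) := by
      rw [hlift, ← pi_q (m := d + 1) (m' := m) hd, hlift, ← hcomp (d + 1) m hd g]
      rfl
    exact q_eq_coeff.mp h1 d (Nat.lt_succ_self d)
  have hMext : ∀ A B : Matrix (Fin n) (Fin n) (PowerSeries k),
      (∀ m, A.map (q m) = B.map (q m)) → A = B := by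
    intro A B h
    ext1 a b
    apply ext_q
    intro m
    exact congrFun (congrFun (h m) a) b
  have hMmap : ∀ (m : ℕ) (g : P), (M g).map (q m) =
      (Ψ m g : Matrix (Fin n) (Fin n) (RR k m)) := by
    intro m g
    ext1 a b
    exact hM m g a b
  let Mh : P →* Matrix (Fin n) (Fin n) (PowerSeries k) :=
    { toFun := M
      map_one' := by
        apply hMext
        intro m
        rw [hMmap, map_one]
        ext1 a b
        by_cases hab : a = b
        · subst hab; simp
        · simp [hab]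
      map_mul' := by
        intro x y
        apply hMext
        intro m
        rw [hMmap, map_mul]
        have h1 : ((M x) * (M y)).map (q m) = (M x).map (q m) * (M y).map (q m) :=
          Matrix.map_mul
        rw [h1, hMmap, hMmap]
        rfl }
  refine ⟨Mh.toHomUnits, ?_, ?_, ?_, ?_⟩
  · intro g
    obtain ⟨γ, hγ, hγ2⟩ := hΨH 1 g
    have h1 : Mh.toHomUnits g ∈ Gam k n := by
      rw [mem_Gam]
      intro a b
      have h2 := (mem_Gam n).mp hγ a b
      have h3 : q 1 (M g a b) = q 1 ((γ : Matrix (Fin n) (Fin n) (PowerSeries k)) a b) := by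
        rw [hM, ← hγ2]
        rfl
      rw [q_eq, pow_one] at h3
      have h4 := dvd_add h3 h2
      rw [Matrix.sub_apply] at h4
      show (X : PowerSeries k) ∣ (M g - 1) a b
      rw [Matrix.sub_apply]
      have e : M g a b - (γ : Matrix (Fin n) (Fin n) (PowerSeries k)) a b +
        ((γ : Matrix (Fin n) (Fin n) (PowerSeries k)) a b -
          (1 : Matrix (Fin n) (Fin n) (PowerSeries k)) a b) =
          M g a b - (1 : Matrix (Fin n) (Fin n) (PowerSeries k)) a b := by ring
      rwa [e] at h4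
    exact MonoidHom.mem_ker.mp h1
  · intro m
    have e : {g : P | ∀ a b : Fin n, (PowerSeries.X : PowerSeries k) ^ m ∣
          ((Mh.toHomUnits g : Matrix (Fin n) (Fin n) (PowerSeries k)) - 1) a b} =
          ((Ψ m).ker : Set P) := by
      ext g
      constructor
      · intro h
        rw [SetLike.mem_coe, MonoidHom.mem_ker]
        ext a b
        have h1 : q m (M g a b) = q m ((1 : Matrix (Fin n) (Fin n) (PowerSeries k)) a b) := by
          rw [q_eq]
          exact h a b
        rw [hM] at h1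
        rw [h1]
        by_cases hab : a = b
        · subst hab; simp
        · simp [hab]
      · intro h a b
        rw [SetLike.mem_coe, MonoidHom.mem_ker] at h
        have h1 : q m (M g a b) = q m ((1 : Matrix (Fin n) (Fin n) (PowerSeries k)) a b) := by
          rw [hM, h]
          by_cases hab : a = b
          · subst hab; simp
          · simp [hab]
        rw [q_eq] at h1
        exact h1
    rw [e]
    exact hΨo m
  · intro i
    apply Units.ext
    show M (c i) = _
    apply hMext
    intro m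
    rw [hMmap, hΨc]
    rfl
  · apply Units.ext
    show M σ = _
    apply hMext
    intro m
    rw [hMmap, hΨσ]
    ext1 a b
    by_cases hab : a = b
    · subst hab; simp
    · simp [hab]

end Pool.Agent.W402.MZ.Lim
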